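import Pool.Agent.H54.CX.PC

/-!
# Connected complexes on which all integral cocycles are coboundaries
-/

set_option autoImplicit false

namespace Pool.Agent.H34.RM

open Pool.Agent.H54.CX Cls

variable {V : Type}

/-- an integral cocycle -/
structure Coc (X : Cpx V) (c : V → V → ℤ) : Prop where
  anti : ∀ a b, X.Edge a b → c a b + c b a = 0
  tri : ∀ a b d, X.Tri a b d → c a b + c b d = c a d

/-- connected and every integral cocycle is a coboundary -/
structure Ac (X : Cpx V) : Prop where
  nonempty : Nonempty V
  conn : ∀ a b, Relation.ReflTransGen X.Edge a b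
  cob : ∀ c, Coc X c → ∃ f : V → ℤ, ∀ a b, X.Edge a b → c a b = f b - f a

section

variable {X : Cpx V}

theorem pc_conn {a b : V} {q : Cls X} (h : PC X a b q) : Relation.ReflTransGen X.Edge a b := by
  induction h with
  | base => exact Relation.ReflTransGen.refl
  | step h h' ih =>
    rcases h' with rfl | h'
    · exact ih
    · exact ih.tail h'

/-- two path classes with the same ends are equal -/
theorem pc_unique (hsc : X.SC) {a b : V} {q r : Cls X} (hq : PC X a b q) (hr : PC X a b r) :
    q = r := by
  obtain ⟨s, hs, h1, h2⟩ := hr.exists_rev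
  have h3 := (sc_iff.1 hsc).2.2 a _ (hq.trans hs)
  calc q = q * pt X b := hq.mul_pt.symm
    _ = q * s * r := by rw [← h2, mul_assoc]
    _ = r := by rw [h3, hr.pt_mul]

open Classical in
/-- the cocycle extended by zero -/
noncomputable def ext0 (X : Cpx V) (c : V → V → ℤ) (a b : V) : ℤ := if X.Edge a b then c a b else 0

/-- the operator of a step -/
noncomputable def op (X : Cpx V) (c : V → V → ℤ) (y : V) : (Function.End (V × ℤ))ᵐᵒᵖ :=
  MulOpposite.op fun s => (y, s.2 + ext0 X c s.1 y)

theorem ext0_self (c : V → V → ℤ) (a : V) : ext0 X c a a = 0 := by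
  rw [ext0, if_neg]
  exact fun h => X.ne _ _ h rfl

theorem ext0_edge (c : V → V → ℤ) {a b : V} (h : X.Edge a b) : ext0 X c a b = c a b := by
  rw [ext0, if_pos h]

/-- the operators of the classes -/
noncomputable def ops {c : V → V → ℤ} (hc : Coc X c) : Cls X →* (Function.End (V × ℤ))ᵐᵒᵖ :=
  Cls.lift (op X c)
    (by
      intro a
      apply MulOpposite.unop_injective
      funext s
      show (a, s.2 + ext0 X c s.1 a + ext0 X c a a) = (a, s.2 + ext0 X c s.1 a)
      rw [ext0_self, add_zero])
    (by
      intro a b h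
      apply MulOpposite.unop_injective
      funext s
      show (a, s.2 + ext0 X c s.1 a + ext0 X c a b + ext0 X c b a) = (a, s.2 + ext0 X c s.1 a)
      have h1 := hc.anti a b h
      rw [ext0_edge c h, ext0_edge c (X.symm _ _ h), add_assoc, h1, add_zero])
    (by
      intro a b d h
      apply MulOpposite.unop_injective
      funext s
      show (d, s.2 + ext0 X c s.1 a + ext0 X c a b + ext0 X c b d) =
        (d, s.2 + ext0 X c s.1 a + ext0 X c a d)
      have h1 := hc.tri a b d h
      have e1 := X.edge _ _ _ h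
      have e2 := X.edge _ _ _ (X.rot _ _ _ h)
      have e3 := X.symm _ _ (X.edge _ _ _ (X.rot _ _ _ (X.rot _ _ _ h)))
      rw [ext0_edge c e1, ext0_edge c e2, ext0_edge c e3, add_assoc, h1])

/-- the value of a class on a starting state -/
noncomputable def val {c : V → V → ℤ} (hc : Coc X c) (a : V) (q : Cls X) : V × ℤ :=
  (ops hc q).unop (a, 0)

theorem val_mul_pt {c : V → V → ℤ} (hc : Coc X c) (a : V) (q : Cls X) (y : V) :
    val hc a (q * pt X y) = (y, (val hc a q).2 + ext0 X c (val hc a q).1 y) := by
  rw [val, map_mul, ops, lift_pt]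
  rfl

theorem val_fst {c : V → V → ℤ} (hc : Coc X c) {a b : V} {q : Cls X} (h : PC X a b q) :
    (val hc a q).1 = b := by
  cases h with
  | base =>
    have : pt X a = 1 * pt X a := (one_mul _).symm
    rw [this, val_mul_pt]
  | step h h' => rw [val_mul_pt]

theorem ac_of_sc (hsc : X.SC) : Ac X := by
  obtain ⟨⟨x₀⟩, h1, -⟩ := sc_iff.1 hsc
  refine ⟨⟨x₀⟩, ?_, ?_⟩
  · intro a b
    obtain ⟨q, hq⟩ := h1 a b
    exact pc_conn hq
  · intro c hc
    choose q hq using h1 x₀
    refine ⟨fun b => (val hc x₀ (q b)).2, fun a b hab => ?_⟩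
    have h2 : q a * pt X b = q b := pc_unique hsc ((hq a).step (Or.inr hab)) (hq b)
    have h3 := val_mul_pt hc x₀ (q a) b
    rw [h2, val_fst hc (hq a), ext0_edge c hab] at h3
    have h4 := congrArg Prod.snd h3
    simp only at h4
    show c a b = (val hc x₀ (q b)).2 - (val hc x₀ (q a)).2
    omega

end

end Pool.Agent.H34.RM
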