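import Pool.Agent.H34.RM.Ac

/-!
# Removal of the orbit of a free pair

A free pair: an edge which is contained in exactly one triangle.
-/

set_option autoImplicit false

namespace Pool.Agent.H34.RM

open Pool.Agent.H54.CX

variable {V : Type} {G : Type} [Group G] [MulAction G V]

/-- `x y` is a translate of the edge `a b` -/
def Trl (G : Type) [Group G] [MulAction G V] (a b x y : V) : Prop :=
  ∃ g : G, (g • a = x ∧ g • b = y) ∨ (g • a = y ∧ g • b = x)

theorem Trl.symm {a b x y : V} (h : Trl G a b x y) : Trl G a b y x := by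
  obtain ⟨g, h | h⟩ := h
  · exact ⟨g, Or.inr h⟩
  · exact ⟨g, Or.inl h⟩

theorem Trl.smul {a b x y : V} (h : Trl G a b x y) (g : G) : Trl G a b (g • x) (g • y) := by
  obtain ⟨g', ⟨rfl, rfl⟩ | ⟨rfl, rfl⟩⟩ := h
  · exact ⟨g * g', Or.inl ⟨mul_smul _ _ _, mul_smul _ _ _⟩⟩
  · exact ⟨g * g', Or.inr ⟨mul_smul _ _ _, mul_smul _ _ _⟩⟩

theorem Trl.smul_iff {a b x y : V} (g : G) : Trl G a b (g • x) (g • y) ↔ Trl G a b x y := by
  constructor
  · intro h
    have := h.smul g⁻¹
    rwa [inv_smul_smul, inv_smul_smul] at this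
  · exact fun h => h.smul g

/-- remove the translates of the edge `a b` and all triangles which contain one of them -/
def cut (X : Cpx V) (G : Type) [Group G] [MulAction G V] (a b : V) : Cpx V where
  Edge x y := X.Edge x y ∧ ¬ Trl G a b x y
  Tri x y z := X.Tri x y z ∧ ¬ Trl G a b x y ∧ ¬ Trl G a b y z ∧ ¬ Trl G a b x z
  len := X.len
  ne x y h := X.ne x y h.1
  symm x y h := ⟨X.symm x y h.1, fun h' => h.2 h'.symm⟩
  edge x y z h := ⟨X.edge x y z h.1, h.2.1⟩
  rot x y z h := ⟨X.rot x y z h.1, h.2.2.1, fun h' => h.2.2.2 h'.symm, fun h' => h.2.1 h'.symm⟩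
  swap x y z h := ⟨X.swap x y z h.1, fun h' => h.2.1 h'.symm, h.2.2.2, h.2.2.1⟩
  len_symm x y h := X.len_symm x y h.1
  pos x y h := X.pos x y h.1
  lt x y z h := X.lt x y z h.1

theorem cut_inv {X : Cpx V} (hX : X.Inv G) (a b : V) : (cut X G a b).Inv G where
  edge g x y h := ⟨hX.edge g x y h.1, fun h' => h.2 ((Trl.smul_iff g).1 h')⟩
  tri g x y z h := ⟨hX.tri g x y z h.1, fun h' => h.2.1 ((Trl.smul_iff g).1 h'),
    fun h' => h.2.2.1 ((Trl.smul_iff g).1 h'), fun h' => h.2.2.2 ((Trl.smul_iff g).1 h')⟩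
  len g x y h := hX.len g x y h.1

theorem tri_edges {X : Cpx V} {x y z : V} (h : X.Tri x y z) :
    X.Edge x y ∧ X.Edge y z ∧ X.Edge x z :=
  ⟨X.edge _ _ _ h, X.edge _ _ _ (X.rot _ _ _ h),
    X.symm _ _ (X.edge _ _ _ (X.rot _ _ _ (X.rot _ _ _ h)))⟩

/-- the data of a free pair; `st` is an invariant of the vertices which separates adjacent vertices -/
structure Free (X : Cpx V) (G : Type) [Group G] [MulAction G V] {S : Type} (st : V → S)
    (a b c : V) : Prop where
  inv : ∀ (g : G) x, st (g • x) = st x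
  ne : ∀ x y, X.Edge x y → st x ≠ st y
  tri : X.Tri a b c
  uniq : ∀ c', X.Tri a b c' → c' = c

section

variable {X : Cpx V} {S : Type} {st : V → S} {a b c : V}

/-- a translate of the edge is contained in exactly one triangle; the two other sides stay -/
theorem Free.apex (h : Free X G st a b c) (hX : X.Inv G) {x y : V} (ht : Trl G a b x y) :
    ∃ z, X.Tri x y z ∧ (∀ z', X.Tri x y z' → z' = z) ∧ (cut X G a b).Edge x z ∧
      (cut X G a b).Edge z y := by
  obtain ⟨e1, e2, e3⟩ := tri_edges h.tri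
  have n1 := h.ne _ _ e1
  have n2 := h.ne _ _ e2
  have n3 := h.ne _ _ e3
  have key : ∀ g : G, (cut X G a b).Edge (g • a) (g • c) ∧ (cut X G a b).Edge (g • c) (g • b) := by
    intro g
    refine ⟨⟨hX.edge g _ _ e3, ?_⟩, ⟨hX.edge g _ _ (X.symm _ _ e2), ?_⟩⟩
    · rintro ⟨g', ⟨h1, h2⟩ | ⟨h1, h2⟩⟩
      · have h3 := congrArg st h2
        rw [h.inv, h.inv] at h3
        exact n2 h3
      · have h3 := congrArg st h1
        rw [h.inv, h.inv] at h3
        exact n3 h3
    · rintro ⟨g', ⟨h1, h2⟩ | ⟨h1, h2⟩⟩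
      · have h3 := congrArg st h1
        rw [h.inv, h.inv] at h3
        exact n3 h3
      · have h3 := congrArg st h2
        rw [h.inv, h.inv] at h3
        exact n2 h3
  have huq : ∀ (g : G) z', X.Tri (g • a) (g • b) z' → z' = g • c := by
    intro g z' hz
    have h1 := hX.tri g⁻¹ _ _ _ hz
    rw [inv_smul_smul, inv_smul_smul] at h1
    rw [← h.uniq _ h1, smul_inv_smul]
  obtain ⟨g, ⟨rfl, rfl⟩ | ⟨rfl, rfl⟩⟩ := ht
  · exact ⟨g • c, hX.tri g _ _ _ h.tri, huq g, (key g).1, (key g).2⟩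
  · refine ⟨g • c, X.swap _ _ _ (hX.tri g _ _ _ h.tri), fun z' hz => huq g z' (X.swap _ _ _ hz),
      (cut X G a b).symm _ _ (key g).2, (cut X G a b).symm _ _ (key g).1⟩

theorem Free.conn (h : Free X G st a b c) (hX : X.Inv G) {x y : V} (hxy : X.Edge x y) :
    Relation.ReflTransGen (cut X G a b).Edge x y := by
  by_cases ht : Trl G a b x y
  · obtain ⟨z, -, -, h1, h2⟩ := h.apex hX ht
    exact (Relation.ReflTransGen.single h1).tail h2
  · exact Relation.ReflTransGen.single ⟨hxy, ht⟩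

/-- the apex of the triangle over a translate of the edge -/
noncomputable def apx (X : Cpx V) (x y : V) : V :=
  haveI : Decidable (∃ z, X.Tri x y z) := Classical.dec _
  if h : ∃ z, X.Tri x y z then h.choose else x

theorem Free.apx_eq (h : Free X G st a b c) (hX : X.Inv G) {x y z : V} (ht : Trl G a b x y)
    (hz : X.Tri x y z) : apx X x y = z := by
  obtain ⟨w, h1, h2, -, -⟩ := h.apex hX ht
  have h3 : ∃ z, X.Tri x y z := ⟨z, hz⟩
  have h4 : apx X x y = h3.choose := by
    rw [apx, dif_pos h3]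
  rw [h4, h2 _ h3.choose_spec, h2 _ hz]

open Classical in
/-- the extension of a cocycle -/
noncomputable def extc (X : Cpx V) (G : Type) [Group G] [MulAction G V] (a b : V)
    (c : V → V → ℤ) (x y : V) : ℤ :=
  if Trl G a b x y then c x (apx X x y) + c (apx X x y) y else c x y

theorem Free.coc (h : Free X G st a b c) (hX : X.Inv G) {e : V → V → ℤ}
    (he : Coc (cut X G a b) e) : Coc X (extc X G a b e) := by
  have hT : ∀ {x y z : V}, Trl G a b x y → X.Tri x y z →
      extc X G a b e x y = e x z + e z y ∧ extc X G a b e x z = e x z ∧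
      extc X G a b e z x = e z x ∧ extc X G a b e y z = e y z ∧ extc X G a b e z y = e z y ∧
      e x z + e z x = 0 ∧ e y z + e z y = 0 := by
    intro x y z ht hz
    obtain ⟨w, h1, h2, h3, h4⟩ := h.apex hX ht
    have h5 := h2 _ hz
    subst h5
    refine ⟨?_, ?_, ?_, ?_, ?_, ?_, ?_⟩
    · rw [extc, if_pos ht, h.apx_eq hX ht hz]
    · rw [extc, if_neg h3.2]
    · rw [extc, if_neg fun h' => h3.2 h'.symm]
    · rw [extc, if_neg fun h' => h4.2 h'.symm]
    · rw [extc, if_neg h4.2]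
    · exact he.anti _ _ h3
    · exact he.anti _ _ ((cut X G a b).symm _ _ h4)
  constructor
  · intro x y hxy
    by_cases ht : Trl G a b x y
    · obtain ⟨z, hz, -, -, -⟩ := h.apex hX ht
      obtain ⟨e1, e2, e3, e4, e5, e6, e7⟩ := hT ht hz
      obtain ⟨f1, f2, f3, f4, f5, f6, f7⟩ := hT ht.symm (X.swap _ _ _ hz)
      rw [e1, f1]
      linarith
    · rw [extc, if_neg ht, extc, if_neg fun h' => ht h'.symm]
      exact he.anti _ _ ⟨hxy, ht⟩
  · intro x y z hz
    by_cases h1 : Trl G a b x y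
    · obtain ⟨e1, e2, e3, e4, e5, e6, e7⟩ := hT h1 hz
      rw [e1, e2, e4]
      linarith
    · by_cases h2 : Trl G a b y z
      · obtain ⟨e1, e2, e3, e4, e5, e6, e7⟩ := hT h2 (X.rot _ _ _ hz)
        rw [e1, e3, e5]
        linarith
      · by_cases h3 : Trl G a b x z
        · have hz' : X.Tri x z y := X.swap _ _ _ (X.rot _ _ _ (X.rot _ _ _ hz))
          obtain ⟨e1, e2, e3, e4, e5, e6, e7⟩ := hT h3 hz'
          rw [e1, e2, e5]
        · rw [extc, if_neg h1, extc, if_neg h2, extc, if_neg h3]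
          exact he.tri _ _ _ ⟨hz, h1, h2, h3⟩

theorem Free.ac (h : Free X G st a b c) (hX : X.Inv G) (hA : Ac X) : Ac (cut X G a b) := by
  refine ⟨hA.nonempty, ?_, ?_⟩
  · intro x y
    have h1 := hA.conn x y
    induction h1 with
    | refl => exact Relation.ReflTransGen.refl
    | tail h1 h2 ih => exact ih.trans (h.conn hX h2)
  · intro e he
    obtain ⟨f, hf⟩ := hA.cob _ (h.coc hX he)
    refine ⟨f, fun x y hxy => ?_⟩
    rw [← hf x y hxy.1, extc, if_neg hxy.2]

end

end Pool.Agent.H34.RM
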