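import Pool.Agent.H34.RM.Ac
import Pool.Agent.H93.TR.Main

/-!
# A complex without triangles is a tree
-/

set_option autoImplicit false

namespace Pool.Agent.H34.RM

open Pool.Agent.H54.CX Pool.Agent.H98.FJ Pool.Agent.H93.TR

variable {V : Type} {X : Cpx V}

/-- the graph of the edges -/
def gr (X : Cpx V) : SimpleGraph V where
  Adj := X.Edge
  symm := ⟨fun _ _ h => X.symm _ _ h⟩
  loopless := ⟨fun _ h => X.ne _ _ h rfl⟩

theorem gr_reach {a b : V} (h : Relation.ReflTransGen X.Edge a b) : (gr X).Reachable a b := by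
  induction h with
  | refl => exact SimpleGraph.Reachable.refl _
  | tail h1 h2 ih =>
    exact ih.trans (SimpleGraph.Adj.reachable (G := gr X) h2)

/-- the crossing cocycle of an edge -/
theorem cross (hA : Ac X) (ht : ∀ x y z, ¬ X.Tri x y z) {v w : V} (hvw : X.Edge v w) :
    ∃ f : V → ℤ, f v ≠ f w ∧ ∀ x y, X.Edge x y → ¬ (x = v ∧ y = w) → ¬ (x = w ∧ y = v) →
      f x = f y := by
  classical
  have hne := X.ne _ _ hvw
  let c : V → V → ℤ := fun x y => if x = v ∧ y = w then 1 else if x = w ∧ y = v then -1 else 0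
  have hc : Coc X c := by
    constructor
    · intro x y _
      simp only [c]
      by_cases h1 : x = v ∧ y = w
      · obtain ⟨rfl, rfl⟩ := h1
        rw [if_pos ⟨rfl, rfl⟩, if_neg (fun h => hne h.2), if_pos ⟨rfl, rfl⟩]
        norm_num
      · by_cases h2 : x = w ∧ y = v
        · obtain ⟨rfl, rfl⟩ := h2
          rw [if_neg h1, if_pos ⟨rfl, rfl⟩, if_pos ⟨rfl, rfl⟩]
          norm_num
        · rw [if_neg h1, if_neg h2, if_neg (fun h => h2 ⟨h.2, h.1⟩),
            if_neg (fun h => h1 ⟨h.2, h.1⟩)]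
          norm_num
    · intro x y z h
      exact absurd h (ht _ _ _)
  obtain ⟨f, hf⟩ := hA.cob c hc
  refine ⟨f, ?_, ?_⟩
  · intro h
    have h1 : c v w = f w - f v := hf v w hvw
    have h2 : c v w = 1 := if_pos ⟨rfl, rfl⟩
    rw [h2, h, sub_self] at h1
    norm_num at h1
  · intro x y hxy h1 h2
    have h3 := hf x y hxy
    simp only [c] at h3
    rw [if_neg h1, if_neg h2] at h3
    omega

theorem const_of_reach {H : SimpleGraph V} {f : V → ℤ} (hf : ∀ x y, H.Adj x y → f x = f y)
    {a b : V} (h : H.Reachable a b) : f a = f b := by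
  obtain ⟨p⟩ := h
  induction p with
  | nil => rfl
  | cons h p ih => exact (hf _ _ h).trans ih

theorem gr_tree (hA : Ac X) (ht : ∀ x y z, ¬ X.Tri x y z) : (gr X).IsTree := by
  have := hA.nonempty
  refine ⟨⟨fun a b => gr_reach (hA.conn a b)⟩, ?_⟩
  rw [SimpleGraph.isAcyclic_iff_forall_adj_isBridge]
  intro v w hvw
  rw [SimpleGraph.isBridge_iff]
  intro hr
  obtain ⟨f, hf1, hf2⟩ := cross hA ht hvw
  apply hf1
  refine const_of_reach (f := f) ?_ hr
  intro x y hxy
  rw [SimpleGraph.deleteEdges_adj] at hxy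
  refine hf2 x y hxy.1 ?_ ?_
  · rintro ⟨rfl, rfl⟩
    exact hxy.2 rfl
  · rintro ⟨rfl, rfl⟩
    exact hxy.2 (Sym2.eq_swap)

/-- a group which acts on such a complex with a homomorphism to a group of the class which is injective on the
stabilisers is in the class -/
theorem tree_mem {C : (G : Type) → [Group G] → Prop} (hC : Inherits C) (hE : Extension C)
    {G Q : Type} [Group G] [MulAction G V] [Group Q] (hX : X.Inv G) (hA : Ac X)
    (ht : ∀ x y z, ¬ X.Tri x y z) (hQ : C Q) (h : G →* Q)
    (hh : ∀ (g : G) (v : V), g • v = v → h g = 1 → g = 1) : C G := by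
  refine main hC hE (X := gr X) ⟨gr_tree hA ht, fun g v w hvw => hX.edge g v w hvw⟩ ?_ hQ h ?_
  · intro v
    refine hC.of_injective (h.comp (MulAction.stabilizer G v).subtype) ?_ hQ
    rw [injective_iff_map_eq_one]
    rintro ⟨g, hg⟩ h1
    exact Subtype.ext (hh g v hg h1)
  · intro n hn v w _ h1 _
    exact hh n v h1 hn

end Pool.Agent.H34.RM
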