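import Pool.Agent.H34.RM.Pair
import Pool.Agent.H34.RM.Tree

/-!
# Removal of all triangles
-/

set_option autoImplicit false

namespace Pool.Agent.H34.RM

open Pool.Agent.H54.CX Pool.Agent.H59.DD Pool.Agent.H98.FJ St

variable {C : (G : Type) → [Group G] → Prop}

theorem rem_aux (hC : Inherits C) (hE : Extension C) {V A : Type} {K : Arr V A} {o : V}
    {W : Type} {Γ Q : Type} [Group Γ] [MulAction Γ W] [Group Q] {st : W → St K o}
    (hstr : NoStr K o) (hQ : C Q) (h : Γ →* Q)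
    (hh : ∀ (g : Γ) (v : W), g • v = v → h g = 1 → g = 1)
    (F : Set (W × W × W)) (hF : F.Finite) (k : ℕ) :
    ∀ Y : Cpx W, Sys Y Γ st → Ac Y →
      (∀ x y z, Y.Tri x y z → ∃ g : Γ, (g • x, g • y, g • z) ∈ F) →
      {t : W × W × W | t ∈ F ∧ Y.Tri t.1 t.2.1 t.2.2}.ncard = k → C Γ := by
  induction k using Nat.strong_induction_on with
  | _ k ih =>
  intro Y hY hA hfin hk
  by_cases ht : ∀ x y z, ¬ Y.Tri x y z
  · exact tree_mem hC hE hY.inv hA ht hQ h hh
  push Not at ht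
  obtain ⟨x, y, z, hxyz⟩ := ht
  have hSf : {t : W × W × W | t ∈ F ∧ Y.Tri t.1 t.2.1 t.2.2}.Finite := hF.subset fun t ht => ht.1
  have hne : {t : W × W × W | t ∈ F ∧ Y.Tri t.1 t.2.1 t.2.2}.Nonempty := by
    obtain ⟨g, hg⟩ := hfin _ _ _ hxyz
    exact ⟨_, hg, hY.inv.tri g _ _ _ hxyz⟩
  obtain ⟨t, ⟨htF, htT⟩, hmax⟩ := Set.exists_max_image _ (fun t : W × W × W => (st t.1).ht) hSf hne
  have htop : ∀ x y z, Y.Tri x y z → (st x).ht ≤ (st t.1).ht := by
    intro x y z hxyz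
    obtain ⟨g, hg⟩ := hfin _ _ _ hxyz
    have h1 := hmax _ ⟨hg, hY.inv.tri g _ _ _ hxyz⟩
    simp only at h1
    rwa [hY.dev.inv] at h1
  obtain ⟨a, b, c, hfree⟩ := exists_free hstr hY htop htT rfl
  have hss : {t : W × W × W | t ∈ F ∧ (cut Y Γ a b).Tri t.1 t.2.1 t.2.2} ⊂
      {t : W × W × W | t ∈ F ∧ Y.Tri t.1 t.2.1 t.2.2} := by
    refine ⟨fun t ht => ⟨ht.1, ht.2.1⟩, fun hsub => ?_⟩
    obtain ⟨g, hg⟩ := hfin _ _ _ hfree.tri
    have h1 := hsub (a := (g • a, g • b, g • c)) ⟨hg, hY.inv.tri g _ _ _ hfree.tri⟩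
    exact h1.2.2.1 ⟨g, Or.inl ⟨rfl, rfl⟩⟩
  have hlt := Set.ncard_lt_ncard hss hSf
  rw [hk] at hlt
  exact ih _ hlt (cut Y Γ a b) (hY.cut a b) (hfree.ac hY.inv hA)
    (fun x y z hxyz => hfin x y z hxyz.1) rfl

/-- no four-cycles in the links -/
theorem no_four {V : Type} {X : Cpx V} (hl : X.Link) (h1 : Unit1 X) (x a b c d : V)
    (hab : X.Tri x a b) (hbc : X.Tri x b c) (hcd : X.Tri x c d) (hda : X.Tri x d a) :
    a = c ∨ b = d := by
  by_contra hcon
  push Not at hcon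
  obtain ⟨hac, hbd⟩ := hcon
  have e : ∀ {p q : V}, X.Tri x p q → p ≠ q := fun h => X.ne _ _ (X.edge _ _ _ (X.rot _ _ _ h))
  let y : ℕ → V := fun i => if i = 0 then a else if i = 1 then b else if i = 2 then c else
    if i = 3 then d else a
  have y0 : y 0 = a := rfl
  have y1 : y 1 = b := rfl
  have y2 : y 2 = c := rfl
  have y3 : y 3 = d := rfl
  have y4 : y 4 = a := rfl
  have htr : ∀ i, i < 4 → X.Tri x (y i) (y (i + 1)) := by
    intro i hi
    interval_cases i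
    · exact hab
    · exact hbc
    · exact hcd
    · exact hda
  have h2 := hl x 4 y (by norm_num) (by rw [y4, y0]) (by
    intro i j hij hj
    interval_cases j
    · omega
    · interval_cases i
      exact e hab
    · interval_cases i
      · exact hac
      · exact e hbc
    · interval_cases i
      · exact (e hda).symm
      · exact hbd
      · exact e hcd) htr
  have hang : ∀ i ∈ Finset.range 4, X.ang x (y i) (y (i + 1)) = Real.pi / 3 := by
    intro i hi
    have ht := htr i (Finset.mem_range.1 hi)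
    have h3 : X.len x (y i) = 1 := h1 _ _ (tri_edges ht).1
    have h4 : X.len x (y (i + 1)) = 1 := h1 _ _ (tri_edges ht).2.2
    have h5 : X.len (y i) (y (i + 1)) = 1 := h1 _ _ (tri_edges ht).2.1
    rw [Cpx.ang, h3, h4, h5]
    have h6 : ((1 : ℝ) ^ 2 + 1 ^ 2 - 1 ^ 2) / (2 * 1 * 1) = Real.cos (Real.pi / 3) := by
      rw [Real.cos_pi_div_three]; norm_num
    rw [h6]
    refine Real.arccos_cos (by positivity) ?_
    have := Real.pi_pos
    linarith
  rw [Finset.sum_congr rfl hang, Finset.sum_const, Finset.card_range, nsmul_eq_mul] at h2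
  have := Real.pi_pos
  push_cast at h2
  linarith

theorem rem_main' (hC : Inherits C) (hE : Extension C) {V A : Type} {K : Arr V A} {o : V}
    (hstr : NoStr K o)
    {W : Type} {Γ Q : Type} [Group Γ] [MulAction Γ W] [Group Q] (Y : Cpx W) (hY : Y.Inv Γ)
    (hsc : Y.SC) (hl : Y.Link) (h1 : Unit1 Y) {st : W → St K o} (hd : Dev Y Γ st)
    (hfull : Full Y Γ) (hQ : C Q) (h : Γ →* Q)
    (hh : ∀ (g : Γ) (v : W), g • v = v → h g = 1 → g = 1)
    (hfin : ∃ F : Set (W × W × W), F.Finite ∧ ∀ x y z, Y.Tri x y z →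
      ∃ g : Γ, (g • x, g • y, g • z) ∈ F) : C Γ := by
  obtain ⟨F, hF, hfin⟩ := hfin
  exact rem_aux hC hE hstr hQ h hh F hF _ Y
    ⟨hY, hd, hfull, fun x a b c d h2 h3 h4 h5 => no_four hl h1 x a b c d h2 h3 h4 h5⟩
    (ac_of_sc hsc) hfin rfl

end Pool.Agent.H34.RM
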