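import Pool.Agent.H34.RM.Cut
import Pool.Agent.H59.DD.Dev

/-!
# Existence of a free pair
-/

set_option autoImplicit false

namespace Pool.Agent.H34.RM

open Pool.Agent.H54.CX Pool.Agent.H59.DD Arr St

variable {V A : Type} {K : Arr V A} {o : V} {W : Type} {Γ : Type} [Group Γ] [MulAction Γ W]
  {Y : Cpx W} {st : W → St K o}

/-- the properties which are inherited by subcomplexes -/
structure Sys (Y : Cpx W) (Γ : Type) [Group Γ] [MulAction Γ W] (st : W → St K o) : Prop where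
  inv : Y.Inv Γ
  dev : Dev Y Γ st
  full : Full Y Γ
  no4 : ∀ x a b c d, Y.Tri x a b → Y.Tri x b c → Y.Tri x c d → Y.Tri x d a → a = c ∨ b = d

theorem Sys.cut (h : Sys Y Γ st) (a b : W) : Sys (cut Y Γ a b) Γ st where
  inv := cut_inv h.inv a b
  dev :=
    { nb := fun x y hxy => h.dev.nb x y hxy.1
      tri := fun x y z hxyz => h.dev.tri x y z hxyz.1
      inv := h.dev.inv
      loc := fun x y y' h1 h2 h3 => h.dev.loc x y y' h1.1 h2.1 h3
      loc3 := fun x y z z' h1 h2 h3 => h.dev.loc3 x y z z' h1.1 h2.1 h3 }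
  full := fun x y hxy => h.full x y hxy.1
  no4 := fun x a' b' c d h1 h2 h3 h4 => h.no4 x a' b' c d h1.1 h2.1 h3.1 h4.1

theorem Sys.st_ne (h : Sys Y Γ st) {x y : W} (hxy : Y.Edge x y) : st x ≠ st y := by
  obtain ⟨a, ha⟩ := h.dev.nb x y hxy
  exact ha.ne

theorem Sys.arrows (h : Sys Y Γ st) {x y z : W} (ht : Y.Tri x y z) :
    ∃ a c, Nb (st x) a (st y) ∧ Nb (st x) c (st z) ∧ K.Lk a c := by
  obtain ⟨a, b, c, h1, -, h3, h4⟩ := h.dev.tri x y z ht
  exact ⟨a, c, h1, h3, ⟨b, h4⟩⟩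

/-- a triangle is not on one level -/
theorem Sys.not_level (h : Sys Y Γ st) {x y z : W} (ht : Y.Tri x y z)
    (h1 : (st y).ht = (st x).ht) (h2 : (st z).ht = (st x).ht) : False := by
  obtain ⟨a, c, h3, h4, h5⟩ := h.arrows ht
  exact not_level_level h3 h4 h1 h2 h5

/-- two triangles on the same edge with third vertices below have the same state of the third vertex -/
theorem Sys.below (h : Sys Y Γ st) {x y z z' : W} (ht : Y.Tri x y z) (ht' : Y.Tri x y z')
    (h1 : (st z).ht + 1 = (st x).ht) (h2 : (st z').ht + 1 = (st x).ht) : st z = st z' := by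
  obtain ⟨a, c, h3, h4, h5⟩ := h.arrows ht
  obtain ⟨a', c', h3', h4', h5'⟩ := h.arrows ht'
  have h6 := Nb.arr h3 h3'
  subst h6
  rcases down_down h4 h4' h1 h2 with h7 | h7
  · subst h7
    exact h4.det h4'
  · exact (n3 h5 h7 h5'.symm).elim

theorem Sys.ht_cases (h : Sys Y Γ st) {x y : W} (hxy : Y.Edge x y) :
    (st y).ht + 1 = (st x).ht ∨ (st y).ht = (st x).ht ∨ (st y).ht = (st x).ht + 1 := by
  obtain ⟨a, ha⟩ := h.dev.nb x y hxy
  exact ha.cases

/-- a horizontal edge on the top level in a triangle such that the third vertex is moved by an element which fixes the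
edge -/
structure Bad (Y : Cpx W) (Γ : Type) [Group Γ] [MulAction Γ W] (st : W → St K o) (n : ℕ)
    (x y w : W) : Prop where
  tri : Y.Tri x y w
  hx : (st x).ht = n
  hy : (st y).ht = n
  ex : ∃ g : Γ, g • x = x ∧ g • y = y ∧ g • w ≠ w

section

variable {n : ℕ}

theorem tri_swap23 {x y z : W} (h : Y.Tri x y z) : Y.Tri x z y :=
  Y.swap _ _ _ (Y.rot _ _ _ (Y.rot _ _ _ h))

theorem Bad.symm {x y w : W} (h : Bad Y Γ st n x y w) : Bad Y Γ st n y x w :=
  ⟨Y.swap _ _ _ h.tri, h.hy, h.hx, by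
    obtain ⟨g, h1, h2, h3⟩ := h.ex
    exact ⟨g, h2, h1, h3⟩⟩

/-- the level of the third vertex of a triangle with an edge on the top level -/
theorem Sys.third (h : Sys Y Γ st) (htop : ∀ x y z, Y.Tri x y z → (st x).ht ≤ n) {x y w : W}
    (ht : Y.Tri x y w) (hx : (st x).ht = n) (hy : (st y).ht = n) : (st w).ht + 1 = n := by
  have h1 := htop _ _ _ (Y.rot _ _ _ (Y.rot _ _ _ ht))
  rcases h.ht_cases (tri_edges ht).2.2 with h2 | h2 | h2
  · rw [h2, hx]
  · exact (h.not_level ht (by rw [hx, hy]) h2).elim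
  · omega

variable (h : Sys Y Γ st) (htop : ∀ x y z, Y.Tri x y z → (st x).ht ≤ n)
  (hno : ∀ a b c, Y.Tri a b c → ∃ c', Y.Tri a b c' ∧ c' ≠ c)
include h htop hno

theorem claimA {x y w : W} (ht : Y.Tri x y w) (hx : (st x).ht = n) (hy : (st y).ht = n) :
    Bad Y Γ st n x y w := by
  obtain ⟨w', h1, h2⟩ := hno _ _ _ ht
  have h3 := h.third htop ht hx hy
  have h4 := h.third htop h1 hx hy
  have h5 := h.below ht h1 (by rw [h3, hx]) (by rw [h4, hx])
  obtain ⟨g, g1, g2, g3⟩ := h.dev.loc3 _ _ _ _ ht h1 h5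
  refine ⟨ht, hx, hy, g, g1, g2, ?_⟩
  rw [g3]; exact h2

/-- an edge `x w` with `w` below the top vertex `x` is in a triangle with a horizontal edge at `x`, or an element fixes
`x`, `w` and moves the given third vertex -/
theorem claimD {x w w' : W} (ht : Y.Tri x w w') (hx : (st x).ht = n) (hw' : (st w').ht + 1 = n) :
    (∃ z, Y.Tri x z w ∧ (st z).ht = n) ∨ ∃ g : Γ, g • x = x ∧ g • w = w ∧ g • w' ≠ w' := by
  obtain ⟨z, h1, h2⟩ := hno _ _ _ ht
  rcases h.ht_cases (tri_edges h1).2.2 with h3 | h3 | h3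
  · right
    have h5 := h.below ht h1 (by rw [hw', hx]) h3
    obtain ⟨g, g1, g2, g3⟩ := h.dev.loc3 _ _ _ _ ht h1 h5
    exact ⟨g, g1, g2, by rw [g3]; exact h2⟩
  · left
    exact ⟨z, tri_swap23 h1, by rw [h3, hx]⟩
  · have := htop _ _ _ (Y.rot _ _ _ (Y.rot _ _ _ h1))
    omega

theorem claimB {x y z : W} (ht : Y.Tri x y z) (hx : (st x).ht = n) :
    ∃ x y w, Bad Y Γ st n x y w := by
  have hy := htop _ _ _ (Y.rot _ _ _ ht)
  have hz := htop _ _ _ (Y.rot _ _ _ (Y.rot _ _ _ ht))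
  rcases h.ht_cases (tri_edges ht).1 with h1 | h1 | h1
  · rcases h.ht_cases (tri_edges ht).2.2 with h2 | h2 | h2
    · rcases claimD h htop hno ht hx (by rw [h2, hx]) with ⟨w, h3, h4⟩ | ⟨g, g1, g2, g3⟩
      · exact ⟨_, _, _, claimA h htop hno h3 hx h4⟩
      · rcases claimD h htop hno (tri_swap23 ht) hx (by rw [h1, hx]) with
          ⟨w, h3, h4⟩ | ⟨g', g1', g2', g3'⟩
        · exact ⟨_, _, _, claimA h htop hno h3 hx h4⟩
        · exfalso
          have hne : g' ≠ 1 := by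
            rintro rfl
            exact g3' (one_smul _ _)
          exact g3 (h.full x z (tri_edges ht).2.2 g' g1' g2' hne g g1)
    · exact ⟨_, _, _, claimA h htop hno (tri_swap23 ht) hx (by rw [h2, hx])⟩
    · omega
  · exact ⟨_, _, _, claimA h htop hno ht hx (by rw [h1, hx])⟩
  · omega

theorem claimC {x y w : W} (hb : Bad Y Γ st n x y w) :
    ∃ y' w', Y.Tri x w w' ∧ (st w').ht + 1 = n ∧ Bad Y Γ st n x y' w' := by
  obtain ⟨ht, hx, hy, g, g1, g2, g3⟩ := hb
  have hw := h.third htop ht hx hy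
  have hgne : g ≠ 1 := by
    rintro rfl
    exact g3 (one_smul _ _)
  have hxwy : Y.Tri x w y := tri_swap23 ht
  -- the translate of the triangle
  have htg : Y.Tri x y (g • w) := by
    have := h.inv.tri g _ _ _ ht
    rwa [g1, g2] at this
  -- the third vertex of another triangle on the edge `x w`
  obtain ⟨w', h1, h2⟩ := hno _ _ _ hxwy
  have hw' : (st w').ht + 1 = n := by
    rcases h.ht_cases (tri_edges h1).2.2 with h3 | h3 | h3
    · rw [h3, hx]
    · exfalso
      have hb' := claimA h htop hno (tri_swap23 h1) hx (by rw [h3, hx])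
      obtain ⟨g', g1', g2', g3'⟩ := hb'.ex
      have hne' : g' ≠ 1 := by
        rintro rfl
        exact g3' (one_smul _ _)
      have hfix : g • w' = w' := h.full x w' (tri_edges h1).2.2 g' g1' g2' hne' g g1
      have h4 : Y.Tri x (g • w) w' := by
        have := h.inv.tri g _ _ _ h1
        rwa [g1, hfix] at this
      rcases h.no4 x y w w' (g • w) ht h1 (tri_swap23 h4) (tri_swap23 htg) with h5 | h5
      · exact h2 h5.symm
      · exact g3 h5.symm
    · have := htop _ _ _ (Y.rot _ _ _ (Y.rot _ _ _ h1))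
      omega
  have hyw' : y ≠ w' := by
    rintro rfl
    omega
  -- `w'` is moved by `g`
  have hgw' : g • w' ≠ w' := by
    intro hfix
    have h4 : Y.Tri x (g • w) w' := by
      have := h.inv.tri g _ _ _ h1
      rwa [g1, hfix] at this
    rcases h.no4 x y w w' (g • w) ht h1 (tri_swap23 h4) (tri_swap23 htg) with h5 | h5
    · exact hyw' h5
    · exact g3 h5.symm
  rcases claimD h htop hno (tri_swap23 h1) hx hw with ⟨y', h3, h4⟩ | ⟨g', g1', g2', g3'⟩
  · exact ⟨y', w', h1, hw', claimA h htop hno h3 hx h4⟩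
  · exfalso
    have hne' : g' ≠ 1 := by
      rintro rfl
      exact g3' (one_smul _ _)
    exact hgw' (h.full x w' (tri_edges h1).2.2 g' g1' g2' hne' g g1)

end

/-- a bad triangle as a point of a type -/
structure BT (Y : Cpx W) (Γ : Type) [Group Γ] [MulAction Γ W] (st : W → St K o) (n : ℕ) where
  x : W
  y : W
  w : W
  bad : Bad Y Γ st n x y w

/-- there is no infinite straight path -/
def NoStr (K : Arr V A) (o : V) : Prop :=
  ∀ (n : ℕ) (x : ℕ → St K o) (a : ℕ → A), (∀ i, (x i).ht = n) →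
    (∀ i, Nb (x i) (a i) (x (i + 1))) →
    (∀ i, ∃ d d' s s', Nb (x (i + 1)) d s ∧ s.ht + 1 = n ∧ Nb (x (i + 1)) d' s' ∧ s'.ht + 1 = n ∧
      d ≠ d' ∧ K.Lk d (K.bar (a i)) ∧ K.Lk d' (a (i + 1))) → False

theorem exists_free (hstr : NoStr K o) (h : Sys Y Γ st) {n : ℕ}
    (htop : ∀ x y z, Y.Tri x y z → (st x).ht ≤ n) {x y z : W} (ht : Y.Tri x y z)
    (hx : (st x).ht = n) : ∃ a b c, Free Y Γ st a b c := by
  by_contra hcon
  have hno : ∀ a b c, Y.Tri a b c → ∃ c', Y.Tri a b c' ∧ c' ≠ c := by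
    intro a b c habc
    by_contra hc
    apply hcon
    refine ⟨a, b, c, h.dev.inv, fun x y hxy => h.st_ne hxy, habc, fun c' hc' => ?_⟩
    by_contra hne
    exact hc ⟨c', hc', hne⟩
  obtain ⟨x₀, y₀, w₀, hb₀⟩ := claimB h htop hno ht hx
  -- the next bad triangle
  have hstep : ∀ b : BT Y Γ st n, ∃ b' : BT Y Γ st n, b'.y = b.x ∧ Y.Tri b.x b.w b'.w := by
    rintro ⟨x, y, w, hb⟩
    obtain ⟨y', w', h1, -, h3⟩ := claimC h htop hno hb
    exact ⟨⟨y', x, w', h3.symm⟩, rfl, h1⟩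
  choose f hf1 hf2 using hstep
  let b : ℕ → BT Y Γ st n := fun i => f^[i] ⟨x₀, y₀, w₀, hb₀⟩
  have hb : ∀ i, b (i + 1) = f (b i) := fun i => Function.iterate_succ_apply' f i _
  have hy : ∀ i, (b (i + 1)).y = (b i).x := fun i => by rw [hb, hf1]
  have htr : ∀ i, Y.Tri (b i).x (b i).w (b (i + 1)).w := fun i => by rw [hb]; exact hf2 _
  have harr : ∀ i, ∃ a, Nb (st (b i).y) a (st (b (i + 1)).y) := by
    intro i
    rw [hy]
    exact h.dev.nb _ _ (Y.symm _ _ (tri_edges (b i).bad.tri).1)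
  choose a ha using harr
  refine hstr n (fun i => st (b i).y) a (fun i => (b i).bad.hy) ha ?_
  intro i
  obtain ⟨e, d, h1, h2, h3⟩ := h.arrows (b i).bad.tri
  obtain ⟨e', d', h1', h2', h3'⟩ := h.arrows (b (i + 1)).bad.symm.tri
  have ha1 : Nb (st (b i).x) (K.bar (a i)) (st (b i).y) := by
    have := (ha i).bar
    rwa [hy] at this
  have he : e = K.bar (a i) := Nb.arr h1 ha1
  subst he
  have ha2 : Nb (st (b (i + 1)).y) (a (i + 1)) (st (b (i + 1)).x) := by
    have := ha (i + 1)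
    rwa [hy (i + 1)] at this
  have he' : e' = a (i + 1) := Nb.arr h1' ha2
  subst he'
  have hw1 := h.third htop (b i).bad.tri (b i).bad.hx (b i).bad.hy
  have hw2 := h.third htop (b (i + 1)).bad.tri (b (i + 1)).bad.hx (b (i + 1)).bad.hy
  refine ⟨d, d', st (b i).w, st (b (i + 1)).w, ?_, hw1, h2', hw2, ?_, h3.symm, h3'.symm⟩
  · show Nb (st (b (i + 1)).y) d _
    rw [hy]; exact h2
  · rintro rfl
    have h5 : Nb (st (b i).x) d (st (b (i + 1)).w) := by
      have := h2'
      rwa [hy] at this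
    exact h.st_ne (tri_edges (htr i)).2.1 (h2.det h5)

end Pool.Agent.H34.RM
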